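import Pool.Agent.Helper20.QP.St2
import Pool.Agent.Helper68.QC.Cal

/-!
# Project QD, PART P, module QCC

Compositions and inverses of continuously differentiable quasiconformal diffeomorphisms of the disc.
-/

set_option autoImplicit false

open Filter Topology Matrix Set Metric MeasureTheory
open scoped ComplexConjugate ENNReal

namespace Pool.Agent.Helper51.QP

open Pool.Agent.Helper35.PM (hs Mat SL IsDiscrete)
open Pool.Agent.Helper20.QD
open Pool.Agent.Helper20.QP

private lemma feq (f : ℂ → ℂ) (z v : ℂ) : fderiv ℝ f z v = dz f z * v + dzb f z * conj v :=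
  Pool.Agent.Helper68.QC.fderiv_eq f z v

private lemma comp_dz {f g : ℂ → ℂ} {z : ℂ} (hg : DifferentiableAt ℝ g (f z))
    (hf : DifferentiableAt ℝ f z) :
    dz (fun x => g (f x)) z = dz g (f z) * dz f z + dzb g (f z) * conj (dzb f z) ∧
    dzb (fun x => g (f x)) z = dz g (f z) * dzb f z + dzb g (f z) * conj (dz f z) :=
  Pool.Agent.Helper68.QC.dz_comp_aux hg hf

private lemma dz_of {f : ℂ → ℂ} {z p q : ℂ}
    (h : HasFDerivAt f (Pool.Agent.Helper68.QC.lin p q) z) : dz f z = p ∧ dzb f z = q :=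
  Pool.Agent.Helper68.QC.dz_of_has h

private lemma has_of {f : ℂ → ℂ} {z : ℂ} (h : DifferentiableAt ℝ f z) :
    HasFDerivAt f (Pool.Agent.Helper68.QC.lin (dz f z) (dzb f z)) z :=
  Pool.Agent.Helper68.QC.has_lin h

private lemma sq_add (u v : ℂ) : ‖u + v‖ ^ 2 = ‖u‖ ^ 2 + ‖v‖ ^ 2 + 2 * (u * conj v).re := by
  rw [← Complex.normSq_eq_norm_sq, ← Complex.normSq_eq_norm_sq, ← Complex.normSq_eq_norm_sq]
  simp only [Complex.normSq_apply, Complex.add_re, Complex.add_im, Complex.mul_re, Complex.conj_re,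
    Complex.conj_im]
  ring

/-- the inequality for the dilatation of a composition -/
private lemma dil {p q p' q' : ℂ} {k k' : ℝ} (hk0 : 0 ≤ k) (hk1 : k < 1) (hk0' : 0 ≤ k')
    (hk1' : k' < 1) (hp : p ≠ 0) (hp' : p' ≠ 0) (hq : ‖q‖ ≤ k' * ‖p‖) (hq' : ‖q'‖ ≤ k * ‖p'‖) :
    p' * p + q' * conj q ≠ 0 ∧
      ‖p' * q + q' * conj p‖ ≤ (k + k') / (1 + k * k') * ‖p' * p + q' * conj q‖ := by
  have ha : 0 < ‖p‖ := norm_pos_iff.2 hp
  have hc : 0 < ‖p'‖ := norm_pos_iff.2 hp'
  have hb : 0 ≤ ‖q‖ := norm_nonneg _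
  have hd : 0 ≤ ‖q'‖ := norm_nonneg _
  have e1 : ‖p' * q + q' * conj p‖ ^ 2 = (‖p'‖ * ‖q‖) ^ 2 + (‖q'‖ * ‖p‖) ^ 2 +
      2 * (p' * q * conj (q' * conj p)).re := by
    rw [sq_add, norm_mul, norm_mul, Complex.norm_conj]
  have e2 : ‖p' * p + q' * conj q‖ ^ 2 = (‖p'‖ * ‖p‖) ^ 2 + (‖q'‖ * ‖q‖) ^ 2 +
      2 * (p' * q * conj (q' * conj p)).re := by
    rw [sq_add, norm_mul, norm_mul, Complex.norm_conj]
    congr 3
    rw [map_mul, map_mul, Complex.conj_conj, Complex.conj_conj]
    ring
  have hR : (p' * q * conj (q' * conj p)).re ≤ ‖p‖ * ‖q‖ * ‖p'‖ * ‖q'‖ := by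
    refine (Complex.re_le_norm _).trans (le_of_eq ?_)
    rw [norm_mul, norm_mul, Complex.norm_conj, norm_mul, Complex.norm_conj]
    ring
  set R := (p' * q * conj (q' * conj p)).re with hRdef
  set a := ‖p‖
  set b := ‖q‖
  set c := ‖p'‖
  set d := ‖q'‖
  set N1 := ‖p' * q + q' * conj p‖ with hN1
  set N2 := ‖p' * p + q' * conj q‖ with hN2
  have hN10 : 0 ≤ N1 := norm_nonneg _
  have hN20 : 0 ≤ N2 := norm_nonneg _
  have hba : b ≤ a := by nlinarith
  have hdc : d ≤ c := by nlinarith
  have hca : 0 < c * a := mul_pos hc ha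
  have hT : 0 < c * a + d * b := by positivity
  have hne : p' * p + q' * conj q ≠ 0 := by
    intro h0
    have h1 : p' * p = - (q' * conj q) := by linear_combination h0
    have h2 := congrArg norm h1
    rw [norm_neg, norm_mul, norm_mul, Complex.norm_conj] at h2
    have h3 : d * b ≤ (k * c) * (k' * a) := mul_le_mul hq' hq hb (by positivity)
    have h4 : (k * c) * (k' * a) = (k * k') * (c * a) := by ring
    have h5 : k * k' < 1 := by nlinarith
    have h6 : (k * k') * (c * a) < 1 * (c * a) := mul_lt_mul_of_pos_right h5 hca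
    change c * a = d * b at h2
    linarith
  refine ⟨hne, ?_⟩
  have hAB : (c * b) ^ 2 + (d * a) ^ 2 ≤ (c * a) ^ 2 + (d * b) ^ 2 := by
    have h1 : b ^ 2 ≤ a ^ 2 := pow_le_pow_left₀ hb hba 2
    have h2 : d ^ 2 ≤ c ^ 2 := pow_le_pow_left₀ hd hdc 2
    nlinarith [mul_nonneg (sub_nonneg.2 h1) (sub_nonneg.2 h2)]
  have key : (N1 * (c * a + d * b)) ^ 2 ≤ ((c * b + d * a) * N2) ^ 2 := by
    rw [mul_pow, mul_pow, e1, e2]
    have h1 : 0 ≤ ((c * a) ^ 2 + (d * b) ^ 2 - ((c * b) ^ 2 + (d * a) ^ 2)) *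
        (2 * (a * b * c * d) - 2 * R) :=
      mul_nonneg (sub_nonneg.2 hAB) (by linarith)
    nlinarith [h1]
  have key2 : N1 * (c * a + d * b) ≤ (c * b + d * a) * N2 :=
    (pow_le_pow_iff_left₀ (by positivity) (by positivity) two_ne_zero).1 key
  have key3 : (c * b + d * a) * (1 + k * k') ≤ (k + k') * (c * a + d * b) := by
    have h1 : (k + k') * (c * a + d * b) - (c * b + d * a) * (1 + k * k') =
        c * (k' * a - b) * (1 - k ^ 2) + a * (k * c - d) * (1 - k' ^ 2) +
          (k' * a - b) * (k * c - d) * (k + k') := by ring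
    have h2 : 0 ≤ k' * a - b := sub_nonneg.2 hq
    have h3 : 0 ≤ k * c - d := sub_nonneg.2 hq'
    have h4 : 0 ≤ 1 - k ^ 2 := by nlinarith
    have h5 : 0 ≤ 1 - k' ^ 2 := by nlinarith
    have h6 : 0 ≤ (k + k') * (c * a + d * b) - (c * b + d * a) * (1 + k * k') := by
      rw [h1]; positivity
    linarith
  have hkk : 0 < 1 + k * k' := by positivity
  rw [div_mul_eq_mul_div, le_div_iff₀ hkk]
  have h7 : N1 * (1 + k * k') * (c * a + d * b) ≤ (k + k') * N2 * (c * a + d * b) := by
    calc N1 * (1 + k * k') * (c * a + d * b) = N1 * (c * a + d * b) * (1 + k * k') := by ring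
      _ ≤ (c * b + d * a) * N2 * (1 + k * k') := mul_le_mul_of_nonneg_right key2 hkk.le
      _ = (c * b + d * a) * (1 + k * k') * N2 := by ring
      _ ≤ (k + k') * (c * a + d * b) * N2 := mul_le_mul_of_nonneg_right key3 hN20
      _ = (k + k') * N2 * (c * a + d * b) := by ring
  exact le_of_mul_le_mul_right h7 hT

private lemma memD_conj {z : ℂ} (hz : z ∈ D) : conj z ∈ D := by
  rw [mem_ball_zero_iff] at hz ⊢
  rwa [Complex.norm_conj]

/-- a real linear endomorphism `v ↦ a v + b conj v`, `|b| < |a|`, is injective -/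
private lemma inj_lt {a b v : ℂ} (h : ‖b‖ < ‖a‖) (hv : a * v + b * conj v = 0) : v = 0 := by
  by_contra h0
  have h1 : a * v = -(b * conj v) := by linear_combination hv
  have h2 : ‖a‖ * ‖v‖ = ‖b‖ * ‖v‖ := by
    have := congrArg norm h1
    rwa [norm_mul, norm_neg, norm_mul, Complex.norm_conj] at this
  have h3 : 0 < ‖v‖ := norm_pos_iff.2 h0
  have := mul_right_cancel₀ h3.ne' h2
  linarith

/-- module QCC -/
theorem hQCC : StQCC := by
  have hopen : IsOpen D := isOpen_ball
  refine ⟨?_, ?_, ?_⟩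
  · intro E F k k' hk0 hk1 hk0' hk1' hE1 hE2 hE3 hF1 hF2 hF3
    refine ⟨hE1.comp hF1, hE2.comp hF2 hF1.mapsTo, ?_⟩
    intro z hz
    have hFz : F z ∈ D := hF1.mapsTo hz
    have dE : DifferentiableAt ℝ E (F z) :=
      (hE2.contDiffAt (hopen.mem_nhds hFz)).differentiableAt one_ne_zero
    have dF : DifferentiableAt ℝ F z :=
      (hF2.contDiffAt (hopen.mem_nhds hz)).differentiableAt one_ne_zero
    obtain ⟨c1, c2⟩ := comp_dz dE dF
    rw [c1, c2]
    exact dil hk0 hk1 hk0' hk1' (hF3 z hz).1 (hE3 _ hFz).1 (hF3 z hz).2 (hE3 _ hFz).2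
  · intro F k hk0 hk1 hF1 hF2 hF3
    have hEF : ∀ z ∈ D, Function.invFunOn F D (F z) = z := fun z hz =>
      hF1.injOn.leftInvOn_invFunOn hz
    have hFE : ∀ z ∈ D, F (Function.invFunOn F D z) = z := fun z hz =>
      hF1.surjOn.rightInvOn_invFunOn hz
    have hED : ∀ z ∈ D, Function.invFunOn F D z ∈ D := fun z hz =>
      hF1.surjOn.mapsTo_invFunOn hz
    generalize Function.invFunOn F D = E at hEF hFE hED
    have hC : ∀ y ∈ D, ContDiffAt ℝ 1 E y := by
      intro y hy
      have hx : E y ∈ D := hED y hy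
      have h1 : ContDiffAt ℝ 1 F (E y) := hF2.contDiffAt (hopen.mem_nhds hx)
      have hlt : ‖dzb F (E y)‖ < ‖dz F (E y)‖ := by
        have hp : 0 < ‖dz F (E y)‖ := norm_pos_iff.2 (hF3 _ hx).1
        have := (hF3 _ hx).2
        nlinarith
      have h2 : Function.Injective (fderiv ℝ F (E y) : ℂ →ₗ[ℝ] ℂ) := by
        rw [injective_iff_map_eq_zero]
        intro v hv
        have hv' : fderiv ℝ F (E y) v = 0 := hv
        rw [feq] at hv'
        exact inj_lt hlt hv'
      let e : ℂ ≃L[ℝ] ℂ := (LinearEquiv.ofInjectiveEndo _ h2).toContinuousLinearEquiv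
      have h3 : HasFDerivAt F (e : ℂ →L[ℝ] ℂ) (E y) := by
        have h4 : (e : ℂ →L[ℝ] ℂ) = fderiv ℝ F (E y) := by
          ext v; rfl
        rw [h4]
        exact (h1.differentiableAt one_ne_zero).hasFDerivAt
      set φ := h1.toOpenPartialHomeomorph F h3 one_ne_zero with hφ
      have hφF : ∀ x, φ x = F x := fun x => rfl
      have hsrc : E y ∈ φ.source := ContDiffAt.mem_toOpenPartialHomeomorph_source h1 h3 one_ne_zero
      have hytar : y ∈ φ.target := by
        have := φ.map_source hsrc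
        rwa [hφF, hFE y hy] at this
      have hsymm : φ.symm y = E y := by
        have h5 := φ.left_inv hsrc
        rwa [hφF, hFE y hy] at h5
      have hcs : ContDiffAt ℝ 1 φ.symm y := by
        apply φ.contDiffAt_symm (f₀' := e) hytar
        · rw [hsymm]; exact h3
        · rw [hsymm]; exact h1
      refine hcs.congr_of_eventuallyEq ?_
      have n1 : φ.target ∈ 𝓝 y := φ.open_target.mem_nhds hytar
      have n2 : φ.symm ⁻¹' D ∈ 𝓝 y := by
        apply hcs.continuousAt
        rw [hsymm]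
        exact hopen.mem_nhds hx
      filter_upwards [n1, n2] with w hw1 hw2
      have h6 : F (φ.symm w) = w := by
        rw [← hφF]
        exact φ.right_inv hw1
      have h7 := hEF _ hw2
      rwa [h6] at h7
    refine ⟨E, fun z hz => ⟨hEF z hz, hFE z hz⟩, ?_, fun y hy => (hC y hy).contDiffWithinAt, ?_⟩
    · refine ⟨hED, ?_, ?_⟩
      · intro x hx y hy hxy
        rw [← hFE x hx, hxy, hFE y hy]
      · intro x hx
        exact ⟨F x, hF1.mapsTo hx, hEF x hx⟩
    · intro y hy
      have hx : E y ∈ D := hED y hy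
      have dE : DifferentiableAt ℝ E (F (E y)) := by
        rw [hFE y hy]
        exact (hC y hy).differentiableAt one_ne_zero
      have dF : DifferentiableAt ℝ F (E y) :=
        (hF2.contDiffAt (hopen.mem_nhds hx)).differentiableAt one_ne_zero
      obtain ⟨c1, c2⟩ := comp_dz dE dF
      rw [hFE y hy] at c1 c2
      have hid : (fun x => E (F x)) =ᶠ[𝓝 (E y)] fun x => x := by
        filter_upwards [hopen.mem_nhds hx] with w hw
        exact hEF w hw
      have hfd : HasFDerivAt (fun x => E (F x)) (Pool.Agent.Helper68.QC.lin 1 0) (E y) := by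
        refine HasFDerivAt.congr_of_eventuallyEq ?_ hid
        refine (hasFDerivAt_id (E y)).congr_fderiv (ContinuousLinearMap.ext fun v => ?_)
        simp
      obtain ⟨i1, i2⟩ := dz_of hfd
      rw [i1] at c1
      rw [i2] at c2
      have hp := (hF3 _ hx).1
      have hq := (hF3 _ hx).2
      have hpn : 0 < ‖dz F (E y)‖ := norm_pos_iff.2 hp
      have h8 : dz E y ≠ 0 := by
        intro h0
        rw [h0, zero_mul, zero_add] at c1 c2
        rcases mul_eq_zero.1 c2.symm with h | h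
        · rw [h, zero_mul] at c1
          exact one_ne_zero c1
        · exact hp (by simpa using h)
      refine ⟨h8, ?_⟩
      have h9 : dzb E y * conj (dz F (E y)) = -(dz E y * dzb F (E y)) := by
        linear_combination -c2
      have h10 := congrArg norm h9
      rw [norm_neg, norm_mul, norm_mul, Complex.norm_conj] at h10
      have h11 : ‖dzb E y‖ * ‖dz F (E y)‖ ≤ k * ‖dz E y‖ * ‖dz F (E y)‖ := by
        rw [h10]
        calc ‖dz E y‖ * ‖dzb F (E y)‖ ≤ ‖dz E y‖ * (k * ‖dz F (E y)‖) :=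
              mul_le_mul_of_nonneg_left hq (norm_nonneg _)
          _ = k * ‖dz E y‖ * ‖dz F (E y)‖ := by ring
      exact le_of_mul_le_mul_right h11 hpn
  · intro F k hF1 hF2 hF3
    have hconj : BijOn (fun z : ℂ => conj z) D D := by
      refine ⟨fun z hz => memD_conj hz, fun x _ y _ h => ?_, fun x hx => ⟨conj x, memD_conj hx, ?_⟩⟩
      · have h1 := congrArg conj h
        simpa using h1
      · simp
    have hcd : ContDiff ℝ 1 (fun z : ℂ => conj z) := Complex.conjCLE.contDiff
    refine ⟨hconj.comp (hF1.comp hconj), ?_, ?_⟩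
    · exact hcd.comp_contDiffOn (hF2.comp hcd.contDiffOn hconj.mapsTo)
    · intro z hz
      have hz' : conj z ∈ D := memD_conj hz
      have dF : DifferentiableAt ℝ F (conj z) :=
        (hF2.contDiffAt (hopen.mem_nhds hz')).differentiableAt one_ne_zero
      have h1 : HasFDerivAt (fun z : ℂ => conj z) (Complex.conjCLE : ℂ →L[ℝ] ℂ) z :=
        Complex.conjCLE.hasFDerivAt
      have h2 : HasFDerivAt (fun z : ℂ => F (conj z)) _ z := (has_of dF).comp z h1
      have h3 : HasFDerivAt (fun z : ℂ => conj (F (conj z))) _ z :=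
        (Complex.conjCLE.hasFDerivAt (x := F (conj z))).comp z h2
      have h4 : HasFDerivAt (fun z : ℂ => conj (F (conj z)))
          (Pool.Agent.Helper68.QC.lin (conj (dz F (conj z))) (conj (dzb F (conj z)))) z := by
        refine h3.congr_fderiv (ContinuousLinearMap.ext fun v => ?_)
        simp
      obtain ⟨i1, i2⟩ := dz_of h4
      rw [i1, i2, Complex.norm_conj, Complex.norm_conj]
      exact ⟨fun h => (hF3 _ hz').1 (by simpa using h), (hF3 _ hz').2⟩

end Pool.Agent.Helper51.QP
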