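import Pool.Agent.Helper20.QP.St3
import Pool.Agent.Helper48.QP.M_COL

/-!
# Project QD, PART P, for module CRD: the collar stays away from the other limit points
-/

set_option autoImplicit false

open Filter Topology Matrix Set Metric MeasureTheory
open scoped ComplexConjugate ENNReal

namespace Pool.Agent.Helper51.QP

open Pool.Agent.Helper35.PM (hs Mat SL IsDiscrete)
open Pool.Agent.Helper20.QD
open Pool.Agent.Helper20.QP

theorem cls_part (hSUB : Pool.Agent.Helper20.QD.StSUB) (_hMET : Pool.Agent.Helper20.QP.StMET)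
    {A0 : SL} (hA0 : IsSU A0) {l : ℝ} {q : ℂ → ℂ} (hSC : SC A0 l q) (hl : l ≤ 1) {x y : ℂ}
    (hfix : ∀ z ∈ DD, mob A0 z = z → z = x ∨ z = y) (w1 : ℂ ≃ₜ ℂ) (C : SL)
    (hCx : den C (w1 x) = 0) (hCn : ∀ z, z ≠ x → den C (w1 z) ≠ 0) (hCy : mob C (w1 y) = 0)
    (a : ℂ) (ha : a ∉ mob C '' (w1 '' D)) (ha0 : a ≠ 0) :
    ∃ ε > 0, ∀ w ∈ Sab 64 (Real.pi / l - 64), ε ≤ ‖mob C (w1 (q w)) - a‖ := by
  by_contra hcon
  push Not at hcon
  choose w hw1 hw2 using fun n : ℕ => hcon (1 / ((n : ℝ) + 1)) Nat.one_div_pos_of_nat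
  have hl0 := hSC.l0
  have hSm : ∀ n, w n ∈ Sm (Real.pi / l) := by
    intro n
    have h := hw1 n
    have h' : 64 < (w n).im ∧ (w n).im < Real.pi / l - 64 := h
    exact ⟨by linarith, by linarith⟩
  have hzD : ∀ n, q (w n) ∈ D := fun n => hSC.bij.mapsTo (hSm n)
  -- a convergent subsequence
  obtain ⟨z, hz, φ, hφ, hlim⟩ := (isCompact_closedBall (0 : ℂ) 1).tendsto_subseq
    (x := fun n => q (w n)) (fun n => ball_subset_closedBall (hzD n))
  have hfa : Tendsto (fun n => mob C (w1 (q (w (φ n))))) atTop (𝓝 a) := by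
    rw [tendsto_iff_norm_sub_tendsto_zero]
    have h1 : Tendsto (fun n : ℕ => 1 / ((n : ℝ) + 1)) atTop (𝓝 0) :=
      tendsto_one_div_add_atTop_nhds_zero_nat
    exact squeeze_zero (fun n => norm_nonneg _) (fun n => (hw2 (φ n)).le) (h1.comp hφ.tendsto_atTop)
  have hw1lim : Tendsto (fun n => w1 (q (w (φ n)))) atTop (𝓝 (w1 z)) :=
    (w1.continuous.tendsto z).comp hlim
  have hden : Tendsto (fun n => den C (w1 (q (w (φ n))))) atTop (𝓝 (den C (w1 z))) := by
    unfold den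
    exact (hw1lim.const_mul _).add_const _
  have hnum : Tendsto (fun n => (C : Mat) 0 0 * w1 (q (w (φ n))) + (C : Mat) 0 1) atTop
      (𝓝 ((C : Mat) 0 0 * w1 z + (C : Mat) 0 1)) := (hw1lim.const_mul _).add_const _
  by_cases hzx : z = x
  · -- the pole
    subst hzx
    have hne : ∀ᶠ n in atTop, mob C (w1 (q (w (φ n)))) ≠ 0 := hfa.eventually_ne ha0
    have hrel : ∀ᶠ n in atTop, mob C (w1 (q (w (φ n)))) * den C (w1 (q (w (φ n)))) =
        (C : Mat) 0 0 * w1 (q (w (φ n))) + (C : Mat) 0 1 := by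
      filter_upwards [hne] with n hn
      have hd : den C (w1 (q (w (φ n)))) ≠ 0 := by
        intro h
        apply hn
        unfold mob
        unfold den at h
        rw [h, div_zero]
      have e1 : mob C (w1 (q (w (φ n)))) =
          ((C : Mat) 0 0 * w1 (q (w (φ n))) + (C : Mat) 0 1) / den C (w1 (q (w (φ n)))) := rfl
      rw [e1, div_mul_cancel₀ _ hd]
    have h1 : Tendsto (fun n => mob C (w1 (q (w (φ n)))) * den C (w1 (q (w (φ n))))) atTop
        (𝓝 (a * 0)) := by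
      rw [← hCx]
      exact hfa.mul hden
    have h2 := tendsto_nhds_unique (h1.congr' hrel) hnum
    rw [mul_zero] at h2
    have hdet : (C : Mat) 0 0 * (C : Mat) 1 1 - (C : Mat) 0 1 * (C : Mat) 1 0 = 1 := by
      have h := C.2
      rwa [Matrix.det_fin_two] at h
    unfold den at hCx
    have h3 : (1 : ℂ) = 0 := by
      by_cases h00 : (C : Mat) 1 0 = 0
      · rw [h00, zero_mul, zero_add] at hCx
        rw [h00, hCx] at hdet
        rw [← hdet]
        ring
      · have h4 : (C : Mat) 1 0 * ((C : Mat) 0 0 * (C : Mat) 1 1 - (C : Mat) 0 1 * (C : Mat) 1 0) = 0 := by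
          linear_combination (C : Mat) 0 0 * (C : Mat) 1 0 * hCx + (C : Mat) 1 0 ^ 2 * h2
        rw [hdet, mul_one] at h4
        exact absurd h4 h00
    exact one_ne_zero h3
  · have hdz := hCn z hzx
    have hfz : Tendsto (fun n => mob C (w1 (q (w (φ n))))) atTop (𝓝 (mob C (w1 z))) :=
      hnum.div hden hdz
    have haz : a = mob C (w1 z) := tendsto_nhds_unique hfa hfz
    have hzD' : z ∉ D := fun h => ha ⟨w1 z, ⟨z, h, rfl⟩, haz.symm⟩
    have hz1 : ‖z‖ = 1 := by
      apply le_antisymm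
      · rwa [mem_closedBall_zero_iff] at hz
      · rw [mem_ball_zero_iff] at hzD'
        exact not_lt.1 hzD'
    obtain ⟨s1, s2, s3, s4, s5⟩ := hSUB.1 A0 hA0
    have hA : Tendsto (fun n => mob A0 (q (w (φ n)))) atTop (𝓝 (mob A0 z)) := by
      have hd := s2 z hz
      exact (((hlim.const_mul ((A0 : Mat) 0 0)).add_const ((A0 : Mat) 0 1))).div
        ((hlim.const_mul ((A0 : Mat) 1 0)).add_const ((A0 : Mat) 1 1)) hd
    have hle : ∀ n, ‖q (w (φ n)) - mob A0 (q (w (φ n)))‖ ^ 2 ≤ (1 - ‖q (w (φ n))‖ ^ 2) / 1600 := by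
      intro n
      have h1 := Pool.Agent.Helper48.QP.short hSC hl (hw1 (φ n))
      have h2 := mem_ball_zero_iff.1 (hzD (φ n))
      have h3 := mem_ball_zero_iff.1 (s3.mapsTo (hzD (φ n)))
      have h4 : 0 < 1 - ‖q (w (φ n))‖ ^ 2 := by
        have := norm_nonneg (q (w (φ n)))
        nlinarith
      have h5 : 0 < 1 - ‖mob A0 (q (w (φ n)))‖ ^ 2 := by
        have := norm_nonneg (mob A0 (q (w (φ n))))
        nlinarith
      have h6 : 1 - ‖mob A0 (q (w (φ n)))‖ ^ 2 ≤ 1 := by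
        have := sq_nonneg ‖mob A0 (q (w (φ n)))‖
        linarith
      unfold dl at h1
      rw [div_le_iff₀ (mul_pos h4 h5)] at h1
      have h7 : (1 - ‖q (w (φ n))‖ ^ 2) * (1 - ‖mob A0 (q (w (φ n)))‖ ^ 2) ≤
          (1 - ‖q (w (φ n))‖ ^ 2) * 1 := mul_le_mul_of_nonneg_left h6 h4.le
      linarith
    have hL : Tendsto (fun n => ‖q (w (φ n)) - mob A0 (q (w (φ n)))‖ ^ 2) atTop
        (𝓝 (‖z - mob A0 z‖ ^ 2)) := ((hlim.sub hA).norm).pow 2
    have hR : Tendsto (fun n => (1 - ‖q (w (φ n))‖ ^ 2) / 1600) atTop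
        (𝓝 ((1 - ‖z‖ ^ 2) / 1600)) := ((hlim.norm.pow 2).const_sub 1).div_const 1600
    have h8 := le_of_tendsto_of_tendsto' hL hR hle
    rw [hz1] at h8
    have h9 : ‖z - mob A0 z‖ = 0 := by
      have := sq_nonneg ‖z - mob A0 z‖
      apply pow_eq_zero_iff two_ne_zero |>.1
      apply le_antisymm _ this
      refine h8.trans (le_of_eq ?_)
      norm_num
    have h10 : mob A0 z = z := (sub_eq_zero.1 (norm_eq_zero.1 h9)).symm
    rcases hfix z hz h10 with h | h
    · exact hzx h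
    · rw [h, hCy] at haz
      exact ha0 haz

end Pool.Agent.Helper51.QP
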