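import Pool.Agent.Helper20.QP.St3

/-!
# Project QD, PART P, module TDI: the disc of representations
-/

set_option autoImplicit false

open Filter Topology Matrix Set Metric MeasureTheory
open scoped ComplexConjugate ENNReal

namespace Pool.Agent.Helper51.QP

open Pool.Agent.Helper35.PM (hs Mat SL IsDiscrete SurfaceGroup Adapted IsQF HolDisc pressureDist)
open Pool.Agent.Helper20.QD
open Pool.Agent.Helper20.QP
open Pool.Agent.Helper68.QC (nq Bel InvB Intw Sol)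
open Pool.Agent.Helper85.QT (HN Ann Cof Cls)

private lemma mob_one (z : ℂ) : mob 1 z = z := by
  unfold mob
  simp

private lemma mul_D (hSUB : Pool.Agent.Helper20.QD.StSUB) (A : SL) {B : SL} (hB : IsSU B) {z : ℂ}
    (hz : z ∈ D) : mob (A * B) z = mob A (mob B z) :=
  (hSUB.2.2.2.1 A B z ((hSUB.1 B hB).2.1 z (ball_subset_closedBall hz))).1

private lemma map_D (hSUB : Pool.Agent.Helper20.QD.StSUB) {B : SL} (hB : IsSU B) {z : ℂ}
    (hz : z ∈ D) : den B z ≠ 0 ∧ mob B z ∈ D :=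
  ⟨(hSUB.1 B hB).2.1 z (ball_subset_closedBall hz), (hSUB.1 B hB).2.2.1.mapsTo hz⟩

private lemma strip_add {M : ℝ} {w : ℂ} (hw : w ∈ Sm M) (x : ℂ) (hx : x.im = 0) : w + x ∈ Sm M := by
  have h1 : 0 < w.im ∧ w.im < M := hw
  show 0 < (w + x).im ∧ (w + x).im < M
  rw [Complex.add_im, hx, add_zero]
  exact h1

private lemma pow_per (hSUB : Pool.Agent.Helper20.QD.StSUB) {Γ : Type} [Group Γ] {σ : Γ →* SL}
    (hF : Fuch σ) {α : Γ} {l : ℝ} {q : ℂ → ℂ} (hS : SC (σ α) l q) (n : ℤ) (u : ℂ)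
    (hu : u ∈ Sm (Real.pi / l)) : mob (σ (α ^ n)) (q u) = q (u + n) := by
  have hnat : ∀ (m : ℕ) (v : ℂ), v ∈ Sm (Real.pi / l) → mob (σ (α ^ m)) (q v) = q (v + m) := by
    intro m
    induction m with
    | zero =>
      intro v _
      rw [pow_zero, map_one, mob_one, Nat.cast_zero, add_zero]
    | succ m ih =>
      intro v hv
      have hv1 : v + 1 ∈ Sm (Real.pi / l) := strip_add hv 1 (by simp)
      rw [pow_succ, map_mul, mul_D hSUB _ (hF.su α) (hS.bij.mapsTo hv), ← hS.per v hv, ih _ hv1]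
      congr 1
      push_cast
      ring
  rcases n.eq_nat_or_neg with ⟨m, rfl | rfl⟩
  · rw [zpow_natCast, hnat m u hu]
    norm_num
  · have hv : u - m ∈ Sm (Real.pi / l) := by
      have := strip_add hu (-(m : ℂ)) (by simp)
      rwa [← sub_eq_add_neg] at this
    have h1 := hnat m _ hv
    rw [sub_add_cancel] at h1
    rw [← h1, ← mul_D hSUB _ (hF.su _) (hS.bij.mapsTo hv), ← map_mul, _root_.zpow_neg, zpow_natCast,
      inv_mul_cancel, map_one, mob_one]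
    congr 1
    push_cast
    ring

private lemma exSC (hHY2 : Pool.Agent.Helper20.QP.StHY2) (hSCE : Pool.Agent.Helper20.QP.StSCE)
    {Γ : Type} [Group Γ] {σ : Γ →* SL} (hF : Fuch σ) (hT : TF Γ) {γ : Γ} (hγ : γ ≠ 1) :
    ∃ q, SC (σ γ) (ll (σ γ)) q := by
  obtain ⟨-, -, ε, hε, hth⟩ := hHY2 Γ σ hF hT
  have hsh : 0 < sh (σ γ) := lt_of_lt_of_le hε (hth γ hγ)
  obtain ⟨l, q, hq⟩ := hSCE _ (hF.su γ) hsh
  have hl : ll (σ γ) = l := by
    unfold ll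
    have h0 : 0 ≤ Real.sinh (l / 2) := (Real.sinh_pos_iff.2 (half_pos hq.l0)).le
    rw [← hq.lsh, Real.sqrt_sq h0, Real.arsinh_sinh]
    ring
  rw [hl]
  exact ⟨q, hq⟩

/-- points of the collar outside the core are in no translate of the core -/
private lemma nmem (hSUB : Pool.Agent.Helper20.QD.StSUB) (hCOL : Pool.Agent.Helper20.QP.StCOL)
    {Γ : Type} [Group Γ] {σ : Γ →* SL} (hF : Fuch σ) (hT : TF Γ) {α : Γ} (hP : Prim α) {l : ℝ}
    {q : ℂ → ℂ} (hS : SC (σ α) l q) (hl : l ≤ 1) {a b : ℝ} (ha : 64 ≤ a) (hb : b ≤ Real.pi / l - 64)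
    {w : ℂ} (hw : w ∈ Sab 64 (Real.pi / l - 64)) (hn : w ∉ Sab a b) (γ : Γ) :
    q w ∉ mob (σ γ) '' (q '' Sab a b) := by
  have hl0 := hS.l0
  have hsub : Sab a b ⊆ Sab 64 (Real.pi / l - 64) := by
    intro u hu
    have hu' : a < u.im ∧ u.im < b := hu
    exact ⟨lt_of_le_of_lt ha hu'.1, lt_of_lt_of_le hu'.2 hb⟩
  have hsub2 : Sab 64 (Real.pi / l - 64) ⊆ Sm (Real.pi / l) := by
    intro u hu
    have hu' : 64 < u.im ∧ u.im < Real.pi / l - 64 := hu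
    exact ⟨by linarith, by linarith⟩
  rintro ⟨y, ⟨u, hu, rfl⟩, hy⟩
  by_cases h : ∀ n : ℤ, γ ≠ α ^ n
  · have hd := (hCOL Γ σ hF hT α α l l q q hP hP hS hS hl hl).1 γ h
    exact Set.disjoint_left.1 hd ⟨q u, ⟨u, hsub hu, rfl⟩, hy⟩ ⟨w, hw, rfl⟩
  · push Not at h
    obtain ⟨n, rfl⟩ := h
    rw [pow_per hSUB hF hS n u (hsub2 (hsub hu))] at hy
    have h1 : u + n = w := hS.bij.injOn (strip_add (hsub2 (hsub hu)) n (by simp)) (hsub2 hw) hy
    apply hn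
    have hu' : a < u.im ∧ u.im < b := hu
    have h2 : w.im = u.im := by
      rw [← h1]
      simp
    exact ⟨by rw [h2]; exact hu'.1, by rw [h2]; exact hu'.2⟩

private lemma img_eq (q : ℂ → ℂ) (a h : ℝ) :
    (fun w : ℂ => q (w + a * Complex.I)) '' Sm h = q '' Sab a (a + h) := by
  ext y
  constructor
  · rintro ⟨w, hw, rfl⟩
    have hw' : 0 < w.im ∧ w.im < h := hw
    refine ⟨w + a * Complex.I, ?_, rfl⟩
    show a < (w + a * Complex.I).im ∧ (w + a * Complex.I).im < a + h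
    simp only [Complex.add_im, Complex.mul_im, Complex.ofReal_re, Complex.I_im, mul_one,
      Complex.ofReal_im, Complex.I_re, mul_zero, add_zero]
    exact ⟨by linarith, by linarith⟩
  · rintro ⟨w, hw, rfl⟩
    have hw' : a < w.im ∧ w.im < a + h := hw
    refine ⟨w - a * Complex.I, ?_, by simp⟩
    show 0 < (w - a * Complex.I).im ∧ (w - a * Complex.I).im < h
    simp only [Complex.sub_im, Complex.mul_im, Complex.ofReal_re, Complex.I_im, mul_one,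
      Complex.ofReal_im, Complex.I_re, mul_zero, add_zero]
    exact ⟨by linarith, by linarith⟩

/-- a function which vanishes outside the disc and is invariant on the disc is invariant -/
private lemma invB_of (hSUB : Pool.Agent.Helper20.QD.StSUB) {A : SL} (hA : IsSU A) {ν : ℂ → ℂ}
    (h0 : ∀ z : ℂ, 1 ≤ ‖z‖ → ν z = 0)
    (h1 : ∀ ξ ∈ D, ν (mob A ξ) * conj ((den A ξ ^ 2)⁻¹) = ν ξ * (den A ξ ^ 2)⁻¹) : InvB A ν := by
  refine Filter.Eventually.of_forall fun z => ?_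
  show ν (mob A z) * den A z ^ 2 = ν z * conj (den A z) ^ 2
  by_cases hd : den A z = 0
  · rw [hd]
    simp
  by_cases hz : z ∈ D
  · have h2 := h1 z hz
    have hd2 : conj (den A z) ≠ 0 := by simpa using hd
    rw [map_inv₀, map_pow] at h2
    field_simp at h2
    rw [h2]
    ring
  · have hz1 : 1 ≤ ‖z‖ := by
      rw [mem_ball_zero_iff] at hz
      exact not_lt.1 hz
    have hm : mob A z ∉ D := by
      intro hm
      apply hz
      have e1 := (hSUB.2.2.2.1 A⁻¹ A z hd).1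
      rw [inv_mul_cancel, mob_one] at e1
      rw [e1]
      exact (map_D hSUB (hSUB.1 A hA).1 hm).2
    have hm1 : 1 ≤ ‖mob A z‖ := by
      rw [mem_ball_zero_iff] at hm
      exact not_lt.1 hm
    rw [h0 z hz1, h0 _ hm1, zero_mul, zero_mul]

/-- the coefficient of the annulus -/
private lemma exNu (hSUB : Pool.Agent.Helper20.QD.StSUB) (hCOL : Pool.Agent.Helper20.QP.StCOL)
    (hNUG : Pool.Agent.Helper20.QP.StNUG) {Γ : Type} [Group Γ] [Countable Γ] {σ : Γ →* SL}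
    (hF : Fuch σ) (hT : TF Γ) {α : Γ} (hP : Prim α) {l : ℝ} {q : ℂ → ℂ} (hS : SC (σ α) l q)
    (hl : l ≤ 1) {a h : ℝ} (ha : 64 ≤ a) (hh : 0 < h) (hah : a + h = Real.pi / l - a) :
    ∃ ν : ℂ → ℂ, Measurable ν ∧ (∀ z, ‖ν z‖ ≤ 1) ∧ (∀ z : ℂ, 1 ≤ ‖z‖ → ν z = 0) ∧
      (∀ γ, InvB (σ γ) ν) ∧
      (∀ z, (∀ γ : Γ, z ∉ mob (σ γ) '' (q '' Sab a (a + h))) → ν z = 0) ∧
      (∀ w ∈ Sab a (a + h), ν (q w) * conj (deriv q w) = deriv q w) := by
  have hsub : ∀ w ∈ Sm h, w + a * Complex.I ∈ Sm (Real.pi / l) := by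
    intro w hw
    have hw' : 0 < w.im ∧ w.im < h := hw
    show 0 < (w + a * Complex.I).im ∧ (w + a * Complex.I).im < Real.pi / l
    simp only [Complex.add_im, Complex.mul_im, Complex.ofReal_re, Complex.I_im, mul_one,
      Complex.ofReal_im, Complex.I_re, mul_zero, add_zero]
    exact ⟨by linarith, by linarith⟩
  have hsub3 : Sab a (a + h) ⊆ Sab 64 (Real.pi / l - 64) := by
    intro u hu
    have hu' : a < u.im ∧ u.im < a + h := hu
    exact ⟨by linarith, by linarith⟩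
  obtain ⟨ν, n1, n2, n3, n4, n5, -⟩ := hNUG Γ σ D α (fun w => q (w + a * Complex.I)) h 1
    isOpen_ball (fun γ ξ hξ => map_D hSUB (hF.su γ) hξ) hh
    (hS.hol.comp ((differentiable_id.add_const _).differentiableOn) hsub)
    (by
      intro w hw w' hw' hww
      have h1 := hS.bij.injOn (hsub w hw) (hsub w' hw') hww
      exact add_right_cancel h1)
    (fun w hw => hS.bij.mapsTo (hsub w hw))
    (by
      intro w hw
      show q (w + 1 + a * Complex.I) = mob (σ α) (q (w + a * Complex.I))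
      rw [← hS.per _ (hsub w hw)]
      congr 1
      ring)
    (by
      intro γ hγ
      rw [img_eq]
      refine Disjoint.mono ?_ ?_ ((hCOL Γ σ hF hT α α l l q q hP hP hS hS hl hl).1 γ hγ)
      · exact Set.image_mono (Set.image_mono hsub3)
      · exact Set.image_mono hsub3)
  rw [img_eq] at n4
  have hz0 : ∀ z : ℂ, 1 ≤ ‖z‖ → ν z = 0 := by
    intro z hz
    apply n4
    rintro γ ⟨y, ⟨u, hu, rfl⟩, rfl⟩
    have hu' : a < u.im ∧ u.im < a + h := hu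
    have huS : u ∈ Sm (Real.pi / l) := ⟨by linarith, by linarith⟩
    have h1 := (map_D hSUB (hF.su γ) (hS.bij.mapsTo huS)).2
    rw [mem_ball_zero_iff] at h1
    exact absurd h1 (not_lt.2 hz)
  refine ⟨ν, n1, fun z => by simpa using n2 z, hz0, fun γ => invB_of hSUB (hF.su γ) hz0 (n3 γ), n4, ?_⟩
  intro w hw
  have hw' : a < w.im ∧ w.im < a + h := hw
  have hwm : w - a * Complex.I ∈ Sm h := by
    show 0 < (w - a * Complex.I).im ∧ (w - a * Complex.I).im < h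
    simp only [Complex.sub_im, Complex.mul_im, Complex.ofReal_re, Complex.I_im, mul_one,
      Complex.ofReal_im, Complex.I_re, mul_zero, add_zero]
    exact ⟨by linarith, by linarith⟩
  have h1 := n5 _ hwm
  rw [deriv_comp_add_const, sub_add_cancel, one_mul] at h1
  exact h1

private lemma im_LE_mid {t : ℂ} {a h : ℝ} (hLT : ∀ w : ℂ, (LT t w).im = w.im * hf t)
    (hp : 0 < hf t) (hh : 0 < h) {w : ℂ} (h1 : a ≤ w.im) (h2 : w.im ≤ a + h) :
    a ≤ (LE t a h w).im ∧ (LE t a h w).im ≤ a + h * hf t := by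
  unfold Pool.Agent.Helper20.QP.LE
  split_ifs with h3
  · have h4 : w.im = a := le_antisymm h3 h1
    rw [h4]
    exact ⟨le_rfl, by nlinarith [mul_pos hh hp]⟩
  · have e : (a * Complex.I + LT t (w - a * Complex.I)).im = a + (w.im - a) * hf t := by
      rw [Complex.add_im, hLT]
      simp
    rw [e]
    constructor
    · nlinarith [mul_nonneg (sub_nonneg.2 h1) hp.le]
    · nlinarith

/-- everything about the surface at the parameter `t` -/
private lemma ptT (hSUB : Pool.Agent.Helper20.QD.StSUB)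
    (hHY2 : Pool.Agent.Helper20.QP.StHY2) (hSCE : Pool.Agent.Helper20.QP.StSCE)
    (hCOL : Pool.Agent.Helper20.QP.StCOL) (hBCH : Pool.Agent.Helper20.QP.StBCH)
    (hSTM : Pool.Agent.Helper20.QP.StSTM) (hCFI : Pool.Agent.Helper20.QP.StCFI)
    {V C3 : ℝ} (hV : 1 ≤ V)
    (hFUL : ∀ (Γ : Type) [Group Γ] (σ σ' : Γ →* SL) (α : Γ)
      (l l' k1 : ℝ) (q q' μs φ : ℂ → ℂ) (t : ℂ), TF Γ → Fuch σ → Fuch σ' → Prim α → SC (σ α) l q →
      SC (σ' α) l' q' → l ≤ 1 → 0 < Real.pi / l - 2 * (64 + V) → ‖t‖ < 1 → Bel k1 μs → k1 < 1 →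
      (∀ γ, Intw (σ γ) (σ' γ) (nq μs)) → (∀ z, ‖nq μs z‖ < 1 ↔ ‖z‖ < 1) →
      DifferentiableOn ℂ (nq μs).symm (D \ ⋃ γ : Γ, mob (σ' γ) '' (nq μs ''
        (q '' {w | 64 + V ≤ w.im ∧ w.im ≤ Real.pi / l - (64 + V)}))) →
      HN ((Real.pi / l - 2 * (64 + V)) * hf t + 2 * V) φ →
      MapsTo φ (Sm ((Real.pi / l - 2 * (64 + V)) * hf t + 2 * V)) (Sm (Real.pi / l')) →
      (∀ w ∈ Sab 64 (Real.pi / l - 64), nq μs (q w) =
        q' (φ (LE t (64 + V) (Real.pi / l - 2 * (64 + V)) w - 64 * Complex.I))) →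
      Real.pi / l' ≤ (Real.pi / l - 2 * (64 + V)) * hf t + C3 ∧ l' ≤ 1 ∧
        ∀ w : ℂ, V ≤ w.im → w.im ≤ V + (Real.pi / l - 2 * (64 + V)) * hf t →
          64 < (φ w).im ∧ (φ w).im < Real.pi / l' - 64)
    {Γ : Type} [Group Γ] {σ ρ ρ' : Γ →* SL} {κ ν : ℂ → ℂ} {k : ℝ} {α : Γ} {q : ℂ → ℂ} {l : ℝ}
    (hSt : StI σ κ k ρ) (hT : TF Γ) (hP : Prim α) (hS : SC (σ α) l q) (hl : l ≤ 1)
    (hh : 0 < Real.pi / l - 2 * (64 + V))
    (n1 : Measurable ν) (n2 : ∀ z, ‖ν z‖ ≤ 1) (n3 : ∀ z : ℂ, 1 ≤ ‖z‖ → ν z = 0)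
    (n4 : ∀ γ, InvB (σ γ) ν)
    (n5 : ∀ z, (∀ γ : Γ, z ∉ mob (σ γ) '' (q '' Sab (64 + V) (Real.pi / l - (64 + V)))) → ν z = 0)
    (n6 : ∀ w ∈ Sab (64 + V) (Real.pi / l - (64 + V)), ν (q w) * conj (deriv q w) = deriv q w)
    {t : ℂ} (ht : ‖t‖ < 1) (hI : ∀ γ, Intw (σ γ) (ρ' γ) (nq (fun z => κ z + t * ν z))) :
    ∃ (μs κ' : ℂ → ℂ) (k' : ℝ) (σ' : Γ →* SL) (q' φ : ℂ → ℂ), Bel ‖t‖ μs ∧
      (∀ z, ‖nq μs z‖ < 1 ↔ ‖z‖ < 1) ∧ (∀ γ, Intw (σ γ) (σ' γ) (nq μs)) ∧ StI σ' κ' k' ρ' ∧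
      (∀ z, nq (fun z => κ z + t * ν z) z = nq κ' (nq μs z)) ∧ SC (σ' α) (ll (σ' α)) q' ∧
      DifferentiableOn ℂ (nq μs).symm (D \ ⋃ γ : Γ, mob (σ' γ) '' (nq μs ''
        (q '' {w | 64 + V ≤ w.im ∧ w.im ≤ Real.pi / l - (64 + V)}))) ∧
      HN ((Real.pi / l - 2 * (64 + V)) * hf t + 2 * V) φ ∧
      MapsTo φ (Sm ((Real.pi / l - 2 * (64 + V)) * hf t + 2 * V)) (Sm (Real.pi / ll (σ' α))) ∧
      (∀ w ∈ Sab 64 (Real.pi / l - 64), nq μs (q w) =
        q' (φ (LE t (64 + V) (Real.pi / l - 2 * (64 + V)) w - 64 * Complex.I))) ∧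
      Real.pi / ll (σ' α) ≤ (Real.pi / l - 2 * (64 + V)) * hf t + C3 ∧ ll (σ' α) ≤ 1 ∧
      ∀ w : ℂ, V ≤ w.im → w.im ≤ V + (Real.pi / l - 2 * (64 + V)) * hf t →
        64 < (φ w).im ∧ (φ w).im < Real.pi / ll (σ' α) - 64 := by
  have hF := hSt.fs
  obtain ⟨μs, κ', k', σ', m1, m2, m3, m4, m5, m6, m7, m8⟩ := hBCH Γ σ ρ ρ' κ (fun z => t * ν z) k ‖t‖
    hSt (norm_nonneg _) ht
    ⟨n1.const_mul t, fun z => by
      rw [norm_mul]
      calc ‖t‖ * ‖ν z‖ ≤ ‖t‖ * 1 := mul_le_mul_of_nonneg_left (n2 z) (norm_nonneg _)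
        _ = ‖t‖ := mul_one _⟩
    (fun z hz => by
      show t * ν z = 0
      rw [n3 z hz, mul_zero])
    (fun γ => by
      filter_upwards [n4 γ] with z hz
      rw [mul_assoc, hz, mul_assoc])
    hI
  have hF' := m7.fs
  obtain ⟨q', hS'⟩ := exSC hHY2 hSCE hF' hT hP.1
  have hq : ∀ w ∈ Sab 64 (Real.pi / l - 64), q w ∈ D := by
    intro w hw
    have hw' : 64 < w.im ∧ w.im < Real.pi / l - 64 := hw
    exact hS.bij.mapsTo (show 0 < w.im ∧ w.im < Real.pi / l from ⟨by linarith, by linarith⟩)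
  obtain ⟨φ, p1, p2, p3⟩ := hSTM (σ α) (σ' α) l (ll (σ' α)) (64 + V) 64 ‖t‖ q q' μs t (hF.su α)
    (hF'.su α) hS hS' m1 ht (m6 α) m4 (by norm_num) (by linarith) hh ht (by
      intro w hw
      have h1 := hq w hw
      rw [m2 _ (mem_ball_zero_iff.1 h1)]
      split_ifs with h2
      · have h3 := n6 w h2
        rw [mul_assoc, h3]
      · rw [n5 _ (fun γ => nmem hSUB hCOL hF hT hP hS hl (by linarith) (by linarith) hw h2 γ)]
        simp)
  have e1 : 2 * (64 + V - 64) = 2 * V := by ring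
  rw [e1] at p1 p2
  have hC := hCFI Γ σ σ' α l (64 + V) ‖t‖ q μs hF hS (by linarith) m1 ht m6 m4 (by
    intro z hz hz2
    rw [m2 _ (mem_ball_zero_iff.1 hz), n5 z, mul_zero]
    intro γ hγ
    apply hz2 γ
    obtain ⟨y, ⟨u, hu, rfl⟩, rfl⟩ := hγ
    have hu' : 64 + V < u.im ∧ u.im < Real.pi / l - (64 + V) := hu
    exact ⟨q u, ⟨u, ⟨hu'.1.le, hu'.2.le⟩, rfl⟩, rfl⟩)
  obtain ⟨f1, f2, f3⟩ := hFUL Γ σ σ' α l (ll (σ' α)) ‖t‖ q q' μs φ t hT hF hF' hP hS hS' hl hh ht m1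
    ht m6 m4 hC p1 p2 p3
  exact ⟨μs, κ', k', σ', q', φ, m1, m4, m6, m7, m8, hS', hC, p1, p2, p3, f1, f2, f3⟩

private lemma mob_ff {A : SL} {lam : ℂ} (h1 : (A : Mat) 0 1 = 0) (h2 : (A : Mat) 1 0 = 0)
    (h3 : (A : Mat) 0 0 = Complex.exp lam * (A : Mat) 1 1) (ξ : ℂ) : mob A ξ = Complex.exp lam * ξ := by
  have hd : (A : Mat) 0 0 * (A : Mat) 1 1 = 1 := by
    have h := A.2
    rw [Matrix.det_fin_two] at h
    change (A : Mat) 0 0 * (A : Mat) 1 1 - (A : Mat) 0 1 * (A : Mat) 1 0 = 1 at h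
    rw [h1, zero_mul, sub_zero] at h
    exact h
  have h4 : (A : Mat) 1 1 ≠ 0 := by
    intro h
    rw [h, mul_zero] at hd
    exact zero_ne_one hd
  unfold mob
  rw [h1, h2, h3, zero_mul, zero_add, add_zero, mul_right_comm, mul_div_cancel_right₀ _ h4]

private lemma one_add_ne {t : ℂ} (ht : ‖t‖ < 1) : (1 : ℂ) + t ≠ 0 := by
  intro h
  have h1 : t = -1 := by linear_combination h
  rw [h1] at ht
  simp at ht

/-- the base point `t` of the disc in the normalisation of the tube theorem -/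
private lemma ptsT (hNUG : Pool.Agent.Helper20.QP.StNUG) (hCRD : Pool.Agent.Helper20.QP.StCRD)
    (hEXC : Pool.Agent.Helper20.QP.StEXC) (hLT : ∀ (t : ℂ), ‖t‖ < 1 → ∀ w : ℂ, (LT t w).im = w.im * hf t)
    {V C3 a0 : ℝ} (hV : 1 ≤ V)
    {Γ : Type} [Group Γ] [Countable Γ] {σ ρ : Γ →* SL} {R : ℂ → Γ →* SL} {κ ν : ℂ → ℂ} {k : ℝ}
    (hA0 : ∀ τ : Γ →* SL, Fuch τ → ∃ F0 : Set ℂ, FD τ F0 ∧
      (∫ z in F0, 4 / (1 - ‖z‖ ^ 2) ^ 2) ≤ a0)
    {α : Γ} {q : ℂ → ℂ} {l : ℝ}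
    (hSt : StI σ κ k ρ) (hT : TF Γ) (hP : Prim α) (hS : SC (σ α) l q)
    {h : ℝ} (hh : 0 < h) (hh2 : 64 + V + h = Real.pi / l - (64 + V))
    (n1 : Measurable ν) (n2 : ∀ z, ‖ν z‖ ≤ 1) (n3 : ∀ z : ℂ, 1 ≤ ‖z‖ → ν z = 0)
    (n4 : ∀ γ, InvB (σ γ) ν)
    (n5 : ∀ z, (∀ γ : Γ, z ∉ mob (σ γ) '' (q '' Sab (64 + V) (64 + V + h))) → ν z = 0)
    (n6 : ∀ w ∈ Sab (64 + V) (64 + V + h), ν (q w) * conj (deriv q w) = deriv q w)
    {t : ℂ} (ht : ‖t‖ < 1)
    (hI : ∀ t ∈ ball (0 : ℂ) 1, ∀ γ, Intw (σ γ) (R t γ) (nq (fun z => κ z + t * ν z)))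
    {μs κ' : ℂ → ℂ} {k' : ℝ} {σ' : Γ →* SL} {q' φ : ℂ → ℂ}
    (m4 : ∀ z, ‖nq μs z‖ < 1 ↔ ‖z‖ < 1) (m7 : StI σ' κ' k' (R t))
    (m8 : ∀ z, nq (fun z => κ z + t * ν z) z = nq κ' (nq μs z)) (hS' : SC (σ' α) (ll (σ' α)) q')
    (p1 : HN (h * hf t + 2 * V) φ)
    (p3 : ∀ w ∈ Sab 64 (Real.pi / l - 64), nq μs (q w) =
        q' (φ (LE t (64 + V) h w - 64 * Complex.I)))
    (f1 : Real.pi / ll (σ' α) ≤ h * hf t + C3) (f2 : ll (σ' α) ≤ 1)
    (f3 : ∀ w : ℂ, V ≤ w.im → w.im ≤ V + h * hf t → 64 < (φ w).im ∧ (φ w).im < Real.pi / ll (σ' α) - 64)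
    (hm : 1 ≤ h * hf t) :
    ∃ (r : Γ →* SL) (C : SL) (A B : Set ℂ) (lam : ℂ)
    (M : ℝ) (G φ μ : ℂ → ℂ) (μ0 : ℂ), (∀ γ, r γ = C * R t γ * C⁻¹) ∧
    Ann r A B α lam M G (h * hf t) φ C3 ∧ Areas r A B a0 ∧ Cls A B lam G φ (h * hf t) ∧
    Cof r A lam G φ (h * hf t) μ0 μ ∧
    ∀ s : ℂ, ‖s‖ < 1 → ∃ C' : SL, ∀ γ,
      Intw (r γ) (C' * R ((s + t) / (1 + conj t * s)) γ * C'⁻¹) (nq (fun z => s * μ z)) := by
  have hF := hSt.fs
  have hh0 : 0 < hf t := by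
    by_contra hc
    have : h * hf t ≤ 0 := mul_nonpos_of_nonneg_of_nonpos hh.le (not_lt.1 hc)
    linarith
  have him : ∀ (w : ℂ) (x : ℝ), (w + x * Complex.I).im = w.im + x := by
    intro w x
    simp
  have hsh : ∀ w : ℂ, 0 < w.im ∧ w.im < h * hf t →
      0 < (w + V * Complex.I).im ∧ (w + V * Complex.I).im < h * hf t + 2 * V := by
    intro w hw
    rw [him]
    exact ⟨by linarith, by linarith⟩
  have hφ1 : HN (h * hf t) (fun w => φ (w + V * Complex.I)) := by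
    refine ⟨?_, ?_, ?_⟩
    · exact p1.dif.comp ((differentiable_id.add_const _).differentiableOn) (fun w hw => hsh w hw)
    · intro w hw w' hw' hww
      exact add_right_cancel (p1.inj (hsh w hw) (hsh w' hw') hww)
    · intro w hw
      show φ (w + 1 + V * Complex.I) = φ (w + V * Complex.I) + 1
      rw [← p1.per _ (hsh w hw)]
      congr 1
      ring
  have hφm : MapsTo (fun w => φ (w + V * Complex.I)) (Sm (h * hf t)) (Sab 64 (Real.pi / ll (σ' α) - 64)) := by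
    intro w hw
    have hw' : 0 < w.im ∧ w.im < h * hf t := hw
    exact f3 _ (by rw [him]; linarith) (by rw [him]; linarith)
  obtain ⟨r, C, A, B, lam, G, c1, c2, c7, c3, c4, c5, c6⟩ := hCRD Γ σ' (R t) κ' k' (ll (σ' α)) (h * hf t)
    C3 a0 α q' (fun w => φ (w + V * Complex.I)) hT hA0 m7 hP hS' f2 hm hφ1 hφm f1
  have h1t := one_add_ne ht
  have hμ0 : ‖(1 + conj t) / (1 + t)‖ = 1 := by
    have e1 : (1 : ℂ) + conj t = conj (1 + t) := by simp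
    rw [e1, norm_div, Complex.norm_conj, div_self]
    exact norm_ne_zero_iff.2 h1t
  have hpm : ∀ w ∈ Sm (h * hf t), φ (w + V * Complex.I) ∈ Sm (Real.pi / ll (σ' α)) := c2.pm
  have hGb := c2.Gb
  have hdj := c2.dj
  obtain ⟨μ, u1, u2, u3, u4, u5, -⟩ := hNUG Γ r A α
    (fun w => Complex.exp (lam * G (φ (w + V * Complex.I)))) (h * hf t) ((1 + conj t) / (1 + t))
    c2.kd.opA (fun γ ξ hξ => c2.kd.mpA γ ξ hξ) (by linarith)
    (by
      have h1 : DifferentiableOn ℂ (fun w => G (φ (w + V * Complex.I))) (Sm (h * hf t)) :=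
        c2.Gh.comp c2.ph c2.pm
      exact (h1.const_mul lam).cexp)
    (by
      intro w hw w' hw' hww
      exact c2.pi hw hw' (hGb.injOn (hpm w hw) (hpm w' hw') hww))
    (fun w hw => hGb.mapsTo (hpm w hw))
    (by
      intro w hw
      show Complex.exp (lam * G (φ (w + 1 + V * Complex.I))) =
        mob (r α) (Complex.exp (lam * G (φ (w + V * Complex.I))))
      have e1 : φ (w + 1 + V * Complex.I) = φ (w + V * Complex.I) + 1 := c2.p1 w hw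
      have e2 : G (φ (w + V * Complex.I) + 1) = G (φ (w + V * Complex.I)) + 1 := c2.G1 _ (hpm w hw)
      rw [e1, e2, mob_ff c2.dg.1 c2.dg.2 c2.mu, ← Complex.exp_add]
      congr 1
      ring)
    hdj
  rw [hμ0] at u2
  refine ⟨r, C, A, B, lam, Real.pi / ll (σ' α), G, fun w => φ (w + V * Complex.I), μ,
    (1 + conj t) / (1 + t), c1, c2, c7, c3, ⟨u1, u2, ?_, u4, u5⟩, ?_⟩
  · intro γ ξ hξ
    exact u3 γ ξ hξ
  have hnqD : ∀ z ∈ D, nq μs z ∈ D := by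
    intro z hz
    rw [mem_ball_zero_iff] at hz ⊢
    exact (m4 z).2 hz
  have hsubM : ∀ w ∈ Sab (64 + V) (64 + V + h), w ∈ Sm (Real.pi / l) := by
    intro w hw
    have hw' : 64 + V < w.im ∧ w.im < 64 + V + h := hw
    exact ⟨by linarith, by linarith⟩
  refine hEXC Γ σ ρ κ ν k (64 + V) h q R t r C (fun w => Complex.exp (lam * G (φ (w + V * Complex.I)))) μ
    hSt n1 n2 n3 n4 hh (hS.hol.mono hsubM) (hS.bij.injOn.mono hsubM)
    (fun w hw => hS.bij.mapsTo (hsubM w hw)) n6 n5 hI ht c1 ?_ ?_ ?_ ?_ u1 u2 ?_ u4 u5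
  · intro z hz
    rw [m8]
    exact c5 _ (hnqD z hz)
  · have h1 : DifferentiableOn ℂ (fun w => G (φ (w + V * Complex.I))) (Sm (h * hf t)) :=
      c2.Gh.comp c2.ph c2.pm
    exact (h1.const_mul lam).cexp
  · intro w hw w' hw' hww
    exact c2.pi hw hw' (hGb.injOn (hpm w hw) (hpm w' hw') hww)
  · intro w hw
    have hw' : 64 + V < w.im ∧ w.im < 64 + V + h := hw
    have him2 : (w - (64 + V : ℝ) * Complex.I).im = w.im - (64 + V) := by
      simp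
    have hζ : LT t (w - (64 + V : ℝ) * Complex.I) ∈ Sm (h * hf t) := by
      show 0 < (LT t (w - (64 + V : ℝ) * Complex.I)).im ∧
        (LT t (w - (64 + V : ℝ) * Complex.I)).im < h * hf t
      rw [hLT t ht, him2]
      exact ⟨mul_pos (by linarith) hh0, mul_lt_mul_of_pos_right (by linarith) hh0⟩
    have hw64 : w ∈ Sab 64 (Real.pi / l - 64) := ⟨by linarith, by linarith⟩
    have eLE : LE t (64 + V) h w - 64 * Complex.I =
        LT t (w - (64 + V : ℝ) * Complex.I) + V * Complex.I := by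
      unfold Pool.Agent.Helper20.QP.LE
      rw [if_neg (not_le.2 hw'.1), if_pos hw'.2.le]
      push_cast
      ring
    rw [m8, p3 w hw64, eLE]
    exact c6 _ (hpm _ hζ)
  · intro γ z hz
    have hA : mob C (nq (fun z => κ z + t * ν z) z) ∈ A := by
      rw [m8, c4]
      exact ⟨_, ⟨_, hnqD z hz, rfl⟩, rfl⟩
    exact u3 γ _ hA

/-- module TDI -/
theorem hTDI (hSUB : Pool.Agent.Helper20.QD.StSUB) (_hMET : Pool.Agent.Helper20.QP.StMET)
    (hHY2 : Pool.Agent.Helper20.QP.StHY2)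
    (hSCE : Pool.Agent.Helper20.QP.StSCE) (_hCEN : Pool.Agent.Helper20.QP.StCEN)
    (hCOL : Pool.Agent.Helper20.QP.StCOL)
    (hNUG : Pool.Agent.Helper20.QP.StNUG) (hFAM : Pool.Agent.Helper20.QP.StFAM)
    (hBCH : Pool.Agent.Helper20.QP.StBCH) (hSTM : Pool.Agent.Helper20.QP.StSTM)
    (hCFI : Pool.Agent.Helper20.QP.StCFI) (hFUL : Pool.Agent.Helper20.QP.StFUL)
    (hLNG : Pool.Agent.Helper20.QP.StLNG) (hCRD : Pool.Agent.Helper20.QP.StCRD)
    (hEXC : Pool.Agent.Helper20.QP.StEXC) (hLEQ : Pool.Agent.Helper20.QP.StLEQ)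
    (hATFR : Pool.Agent.Helper20.QP.StATFR) (hGQFS : Pool.Agent.Helper20.QP.StGQFS) :
    Pool.Agent.Helper20.QP.StTDI := by
  obtain ⟨V, C3, hV, hC3, FUL⟩ := hFUL
  have hpi := Real.pi_pos
  refine ⟨min 1 (Real.pi / (2 * (64 + V) + 2)), C3, 2 * (64 + V),
    lt_min one_pos (div_pos hpi (by linarith)), hC3, by linarith, ?_⟩
  intro g a0 _ hA0 σ ρ κ k α hSt hP hll
  have hT : TF (SurfaceGroup g) := hATFR g
  have hF := hSt.fs
  have : Countable (SurfaceGroup g) := by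
    rw [← Set.countable_univ_iff]
    have h1 : (Set.univ : Set (SurfaceGroup g)) = ⋃ n : ℕ, {γ | hs (σ γ : Mat) ≤ n} := by
      ext γ
      simp only [Set.mem_univ, Set.mem_iUnion, Set.mem_ofPred_eq, true_iff]
      exact exists_nat_ge _
    rw [h1]
    exact Set.countable_iUnion fun n => (hF.discrete n).countable
  obtain ⟨q, hS⟩ := exSC hHY2 hSCE hF hT hP.1
  have hl0 := hS.l0
  have hl1 : ll (σ α) ≤ 1 := hll.trans (min_le_left _ _)
  have hl2 : 2 * (64 + V) + 2 ≤ Real.pi / ll (σ α) := by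
    have h1 := hll.trans (min_le_right _ _)
    rw [le_div_iff₀ (by linarith)] at h1
    rw [le_div_iff₀ hl0]
    linarith
  have hh : 0 < Real.pi / ll (σ α) - 2 * (64 + V) := by linarith
  have hh2 : 64 + V + (Real.pi / ll (σ α) - 2 * (64 + V)) = Real.pi / ll (σ α) - (64 + V) := by ring
  obtain ⟨ν, n1, n2, n3, n4, n5, n6⟩ := exNu hSUB hCOL hNUG hF hT hP hS hl1 (a := 64 + V)
    (h := Real.pi / ll (σ α) - 2 * (64 + V)) (by linarith) hh hh2
  obtain ⟨R, R0, R1, R2⟩ := hFAM (SurfaceGroup g) σ ρ κ ν k hSt n1 n2 n3 n4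
  have hLT : ∀ (t : ℂ), ‖t‖ < 1 → ∀ w : ℂ, (LT t w).im = w.im * hf t := fun t ht =>
    (hLEQ t 0 1 ht le_rfl one_pos).2.2.1
  have hhf : ∀ (t : ℂ), ‖t‖ < 1 → 0 < hf t := fun t ht => (hLEQ t 0 1 ht le_rfl one_pos).2.2.2.1
  have n5' := n5
  have n6' := n6
  rw [hh2] at n5' n6'
  refine ⟨R, Real.pi / ll (σ α) - 2 * (64 + V), R0, le_rfl, hh, ⟨⟨R1, ?_⟩, ?_⟩, ?_⟩
  · intro z hz
    exact hGQFS g σ (R z) (nq (fun x => κ x + z * ν x)) hF (Homeomorph.isHomeomorph _) (R2 z hz)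
  · intro t ht hm
    have ht' : ‖t‖ < 1 := mem_ball_zero_iff.1 ht
    obtain ⟨μs, κ', k', σ', q', φ, m1, m4, m6, m7, m8, hS', hC, p1, p2, p3, f1, f2, f3⟩ :=
      ptT hSUB hHY2 hSCE hCOL hBCH hSTM hCFI hV FUL hSt hT hP hS hl1 hh n1 n2 n3 n4 n5' n6' ht'
        (R2 t ht)
    exact ptsT hNUG hCRD hEXC hLT hV hA0 hSt hT hP hS hh hh2 n1 n2 n3 n4 n5 n6 ht' R2 m4 m7 m8 hS' p1
      p3 f1 f2 f3 hm
  · intro t ht
    have ht' : ‖t‖ < 1 := mem_ball_zero_iff.1 ht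
    obtain ⟨μs, κ', k', σ', q', φ, m1, m4, m6, m7, m8, hS', hC, p1, p2, p3, f1, f2, f3⟩ :=
      ptT hSUB hHY2 hSCE hCOL hBCH hSTM hCFI hV FUL hSt hT hP hS hl1 hh n1 n2 n3 n4 n5' n6' ht'
        (R2 t ht)
    refine ⟨σ', κ', k', m7, hS'.l0, f1, ?_⟩
    intro β hPβ hCj hβ
    obtain ⟨q1, hS1⟩ := exSC hHY2 hSCE hF hT hPβ.1
    obtain ⟨q1', hS1'⟩ := exSC hHY2 hSCE m7.fs hT hPβ.1
    refine hLNG (SurfaceGroup g) σ σ' α β (ll (σ α)) (ll (σ' α)) (ll (σ β)) (ll (σ' β)) ‖t‖ (64 + V)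
      q q' q1 q1' μs hT hF m7.fs hP hPβ hCj hS hS' hS1 hS1' f2 hβ m1 ht' m6 m4 hC ?_
    rintro y ⟨x, ⟨w, hw, rfl⟩, rfl⟩
    have hw' : 64 + V ≤ w.im ∧ w.im ≤ Real.pi / ll (σ α) - (64 + V) := hw
    have hw64 : w ∈ Sab 64 (Real.pi / ll (σ α) - 64) := ⟨by linarith, by linarith⟩
    obtain ⟨i1, i2⟩ := im_LE_mid (hLT t ht') (hhf t ht') hh hw'.1
      (show w.im ≤ 64 + V + (Real.pi / ll (σ α) - 2 * (64 + V)) by linarith)
    have e1 : (LE t (64 + V) (Real.pi / ll (σ α) - 2 * (64 + V)) w - 64 * Complex.I).im =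
        (LE t (64 + V) (Real.pi / ll (σ α) - 2 * (64 + V)) w).im - 64 := by
      simp
    have h1 := f3 (LE t (64 + V) (Real.pi / ll (σ α) - 2 * (64 + V)) w - 64 * Complex.I)
      (by rw [e1]; linarith) (by rw [e1]; linarith)
    exact ⟨_, h1, (p3 w hw64).symm⟩

end Pool.Agent.Helper51.QP
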